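import Mathlib

/-! Counting preimages of finite sets under rational functions over an algebraically closed field. -/

set_option autoImplicit false

namespace Pool.Agent.Q15.AvgDeg

open Polynomial Finset

section field
variable {L : Type*} [Field L] [IsAlgClosed L] [DecidableEq L]

omit [IsAlgClosed L] [DecidableEq L] in
theorem lin_ne_zero {g h : L[X]} (hd : 1 ≤ max g.natDegree h.natDegree) (hc : IsCoprime g h) (b : L) :
    g - C b * h ≠ 0 := by
  intro h0
  have hg : g = C b * h := by linear_combination h0
  have hdv : h ∣ g := by rw [hg]; exact Dvd.intro_left _ rfl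
  have hu : IsUnit h := hc.isUnit_of_dvd' hdv dvd_rfl
  have h1 : h.natDegree = 0 := natDegree_eq_zero_of_isUnit hu
  have h2 : g.natDegree = 0 := by
    rw [hg]
    have := natDegree_C_mul_le b h
    omega
  rw [h1, h2] at hd
  simp at hd

omit [IsAlgClosed L] [DecidableEq L] in
theorem h_ne_of_root {g h : L[X]} (hc : IsCoprime g h) {b x : L} (hx : (g - C b * h).eval x = 0) :
    h.eval x ≠ 0 := by
  intro h0
  obtain ⟨u, v, huv⟩ := hc
  have := congrArg (Polynomial.eval x) huv
  simp only [eval_add, eval_mul, eval_one, h0, mul_zero, add_zero] at this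
  simp only [eval_sub, eval_mul, eval_C, h0, mul_zero, sub_zero] at hx
  rw [hx, mul_zero] at this
  exact zero_ne_one this

/-- preimage in the affine line of a finite set under `g/h` -/
noncomputable def pre (g h : L[X]) (S : Finset L) : Finset L :=
  S.biUnion fun b => (g - C b * h).roots.toFinset

omit [IsAlgClosed L] in
theorem mem_pre {g h : L[X]} (hd : 1 ≤ max g.natDegree h.natDegree) (hc : IsCoprime g h) {S : Finset L} {x : L} :
    x ∈ pre g h S ↔ h.eval x ≠ 0 ∧ g.eval x / h.eval x ∈ S := by
  unfold pre
  simp only [mem_biUnion, Multiset.mem_toFinset]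
  constructor
  · rintro ⟨b, hb, hx⟩
    rw [mem_roots (lin_ne_zero hd hc b)] at hx
    have h0 := h_ne_of_root hc hx
    refine ⟨h0, ?_⟩
    have : g.eval x = b * h.eval x := by
      have := hx
      simp only [IsRoot, eval_sub, eval_mul, eval_C] at this
      linear_combination this
    rw [this, mul_div_assoc, div_self h0, mul_one]
    exact hb
  · rintro ⟨h0, hx⟩
    refine ⟨_, hx, ?_⟩
    rw [mem_roots (lin_ne_zero hd hc _)]
    simp only [IsRoot, eval_sub, eval_mul, eval_C]
    rw [div_mul_cancel₀ _ h0, sub_self]

omit [IsAlgClosed L] in
theorem pairwise_roots {g h : L[X]} (hd : 1 ≤ max g.natDegree h.natDegree) (hc : IsCoprime g h) (S : Finset L) :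
    (S : Set L).PairwiseDisjoint fun b => (g - C b * h).roots.toFinset := by
  intro b _ c _ hbc
  rw [Function.onFun, Finset.disjoint_left]
  intro x hx hy
  rw [Multiset.mem_toFinset, mem_roots (lin_ne_zero hd hc _)] at hx hy
  have h0 := h_ne_of_root hc hx
  simp only [IsRoot, eval_sub, eval_mul, eval_C] at hx hy
  apply hbc
  have : (b - c) * h.eval x = 0 := by linear_combination hy - hx
  rcases mul_eq_zero.mp this with h1 | h1
  · exact sub_eq_zero.mp h1
  · exact absurd h1 h0

omit [IsAlgClosed L] in
theorem card_pre {g h : L[X]} (hd : 1 ≤ max g.natDegree h.natDegree) (hc : IsCoprime g h) (S : Finset L) :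
    (pre g h S).card = ∑ b ∈ S, (g - C b * h).roots.toFinset.card :=
  Finset.card_biUnion (pairwise_roots hd hc S)

omit [IsAlgClosed L] in
theorem card_pre_le {g h : L[X]} (hd : 1 ≤ max g.natDegree h.natDegree) (hc : IsCoprime g h) (S : Finset L) :
    (pre g h S).card ≤ max g.natDegree h.natDegree * S.card := by
  rw [card_pre hd hc, mul_comm, ← smul_eq_mul, ← Finset.sum_const]
  apply Finset.sum_le_sum
  intro b _
  refine (Multiset.toFinset_card_le _).trans ((card_roots' _).trans ?_)
  refine (natDegree_sub_le _ _).trans ?_
  exact max_le_max le_rfl (natDegree_C_mul_le _ _)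

omit [IsAlgClosed L] in
/-- multiplicities are controlled by the Wronskian -/
theorem sum_mult {g h : L[X]} (hd : 1 ≤ max g.natDegree h.natDegree) (hc : IsCoprime g h)
    (hW : derivative g * h - g * derivative h ≠ 0) (S : Finset L) :
    ∑ b ∈ S, (((g - C b * h).roots.card : ℤ) - (g - C b * h).roots.toFinset.card) ≤
      2 * max g.natDegree h.natDegree - 1 := by
  set W := derivative g * h - g * derivative h with hWdef
  have hdeg : (W.natDegree : ℤ) ≤ 2 * max g.natDegree h.natDegree - 1 := by
    have h1 : (derivative g * h).natDegree ≤ g.natDegree - 1 + h.natDegree :=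
      natDegree_mul_le.trans (Nat.add_le_add_right (natDegree_derivative_le g) _)
    have h2 : (g * derivative h).natDegree ≤ g.natDegree + (h.natDegree - 1) :=
      natDegree_mul_le.trans (Nat.add_le_add_left (natDegree_derivative_le h) _)
    have h3 := natDegree_sub_le (derivative g * h) (g * derivative h)
    rw [← hWdef] at h3
    have ha := le_max_left g.natDegree h.natDegree
    have hb := le_max_right g.natDegree h.natDegree
    have h4 : W.natDegree ≤ 2 * max g.natDegree h.natDegree - 1 := by
      refine h3.trans (max_le (h1.trans ?_) (h2.trans ?_))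
      · rcases Nat.eq_zero_or_pos g.natDegree with h0 | h0
        · rw [h0] at *
          omega
        · omega
      · omega
    omega
  have hroots : ∀ b : L, ((g - C b * h).roots.card : ℤ) - (g - C b * h).roots.toFinset.card ≤
      ∑ x ∈ (g - C b * h).roots.toFinset, (W.roots.count x : ℤ) := by
    intro b
    set P := g - C b * h with hP
    have hP0 : P ≠ 0 := lin_ne_zero hd hc b
    have h1 : (P.roots.card : ℤ) - P.roots.toFinset.card =
        ∑ x ∈ P.roots.toFinset, ((P.roots.count x : ℤ) - 1) := by
      rw [Finset.sum_sub_distrib]
      simp only [Finset.sum_const, nsmul_eq_mul, mul_one]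
      rw [← Multiset.toFinset_sum_count_eq P.roots]
      push_cast
      rfl
    rw [h1]
    apply Finset.sum_le_sum
    intro x _
    rw [count_roots, count_roots]
    have h2 : (X - C x) ^ (P.rootMultiplicity x - 1) ∣ W := by
      have e : W = derivative P * h - P * derivative h := by
        rw [hWdef, hP]
        simp only [derivative_sub, derivative_mul, derivative_C, zero_mul, zero_add]
        ring
      rw [e]
      apply dvd_sub
      · exact Dvd.dvd.mul_right (pow_sub_one_dvd_derivative_of_pow_dvd (P.pow_rootMultiplicity_dvd x)) _
      · exact Dvd.dvd.mul_right ((pow_dvd_pow _ (Nat.sub_le _ _)).trans (P.pow_rootMultiplicity_dvd x)) _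
    have h3 : P.rootMultiplicity x - 1 ≤ W.rootMultiplicity x := (le_rootMultiplicity_iff hW).mpr h2
    omega
  calc ∑ b ∈ S, (((g - C b * h).roots.card : ℤ) - (g - C b * h).roots.toFinset.card)
      ≤ ∑ b ∈ S, ∑ x ∈ (g - C b * h).roots.toFinset, (W.roots.count x : ℤ) :=
        Finset.sum_le_sum fun b _ => hroots b
    _ = ∑ x ∈ pre g h S, (W.roots.count x : ℤ) := (Finset.sum_biUnion (pairwise_roots hd hc S)).symm
    _ ≤ ∑ x ∈ pre g h S ∪ W.roots.toFinset, (W.roots.count x : ℤ) :=
        Finset.sum_le_sum_of_subset_of_nonneg Finset.subset_union_left fun _ _ _ => Int.natCast_nonneg _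
    _ = W.roots.card := by
        have : W.roots.card = ∑ x ∈ pre g h S ∪ W.roots.toFinset, W.roots.count x := by
          rw [← Multiset.toFinset_sum_count_eq W.roots]
          apply Finset.sum_subset (Finset.subset_union_right (s₁ := pre g h S) (s₂ := W.roots.toFinset))
          intro x _ hx
          rw [Multiset.mem_toFinset] at hx
          exact Multiset.count_eq_zero_of_notMem hx
        rw [this]; push_cast; rfl
    _ ≤ W.natDegree := by exact_mod_cast card_roots' W
    _ ≤ _ := hdeg

theorem card_pre_ge {g h : L[X]} (hd : 1 ≤ max g.natDegree h.natDegree) (hc : IsCoprime g h)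
    (hW : derivative g * h - g * derivative h ≠ 0) (S : Finset L) (d : ℕ) (hdd : d = max g.natDegree h.natDegree) :
    (d : ℤ) * ((S.card : ℤ) - 1) - (2 * d - 1) ≤ (pre g h S).card := by
  classical
  set S' := S.filter fun b => (g - C b * h).natDegree = d with hS'
  have hcard : S.card ≤ S'.card + 1 := by
    have h1 : (S.filter fun b => ¬ (g - C b * h).natDegree = d).card ≤ 1 := by
      rw [Finset.card_le_one]
      intro b hb c hc'
      rw [Finset.mem_filter] at hb hc'
      have aux : ∀ b : L, ¬ (g - C b * h).natDegree = d → g.coeff d - b * h.coeff d = 0 := by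
        intro b hb
        by_contra h0
        apply hb
        apply le_antisymm
        · rw [hdd]
          exact (natDegree_sub_le _ _).trans (max_le_max le_rfl (natDegree_C_mul_le _ _))
        · apply le_natDegree_of_ne_zero
          rw [coeff_sub, coeff_C_mul]
          exact h0
      have e1 := aux b hb.2
      have e2 := aux c hc'.2
      have hh : h.coeff d ≠ 0 := by
        intro h0
        have hg0 : g.coeff d = 0 := by rw [h0] at e1; linear_combination e1
        rcases le_total g.natDegree h.natDegree with hle | hle
        · have : d = h.natDegree := hdd.trans (max_eq_right hle)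
          rw [this] at h0
          have h00 : h = 0 := by rwa [coeff_natDegree, leadingCoeff_eq_zero] at h0
          rw [h00, natDegree_zero] at this
          omega
        · have : d = g.natDegree := hdd.trans (max_eq_left hle)
          rw [this] at hg0
          have h00 : g = 0 := by rwa [coeff_natDegree, leadingCoeff_eq_zero] at hg0
          rw [h00, natDegree_zero] at this
          omega
      have : (b - c) * h.coeff d = 0 := by linear_combination e2 - e1
      rcases mul_eq_zero.mp this with h1 | h1
      · exact sub_eq_zero.mp h1
      · exact absurd h1 hh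
    have h2 := Finset.card_filter_add_card_filter_not (s := S) (fun b => (g - C b * h).natDegree = d)
    rw [← hS'] at h2
    omega
  have hsub : pre g h S' ⊆ pre g h S := Finset.biUnion_subset_biUnion_of_subset_left _ (Finset.filter_subset _ _)
  have h1 : ((pre g h S').card : ℤ) ≤ (pre g h S).card := by exact_mod_cast Finset.card_le_card hsub
  refine le_trans ?_ h1
  have h2 := sum_mult hd hc hW S'
  rw [Finset.sum_sub_distrib] at h2
  rw [← hdd] at h2
  have h3 : ∑ b ∈ S', ((g - C b * h).roots.card : ℤ) = S'.card * d := by
    rw [Finset.sum_congr rfl (g := fun _ => (d : ℤ))]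
    · simp
    · intro b hb
      rw [Finset.mem_filter] at hb
      rw [← hb.2]
      exact_mod_cast (IsAlgClosed.splits (g - C b * h)).natDegree_eq_card_roots.symm
  have h4 : ((pre g h S').card : ℤ) = ∑ b ∈ S', ((g - C b * h).roots.toFinset.card : ℤ) := by
    rw [card_pre hd hc]; push_cast; rfl
  rw [h3, ← h4] at h2
  have h5 : (S.card : ℤ) - 1 ≤ S'.card := by
    have : (S.card : ℤ) ≤ S'.card + 1 := by exact_mod_cast hcard
    linarith
  have h6 : (d : ℤ) * ((S.card : ℤ) - 1) ≤ S'.card * d := by
    rw [mul_comm]
    exact mul_le_mul_of_nonneg_right h5 (Int.natCast_nonneg _)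
  linarith

end field

/-- `p`-reduction: a coprime pair over a perfect field is a `p ^ e`-th power of a coprime pair with non-zero
Wronskian. -/
theorem exists_reduction {K : Type*} [Field K] (p : ℕ) [hp : Fact p.Prime] [CharP K p] [PerfectRing K p] :
    ∀ n : ℕ, ∀ g h : K[X], IsCoprime g h → max g.natDegree h.natDegree = n → 1 ≤ n →
      ∃ (e : ℕ) (g' h' : K[X]), g = g' ^ p ^ e ∧ h = h' ^ p ^ e ∧ IsCoprime g' h' ∧
        1 ≤ max g'.natDegree h'.natDegree ∧ derivative g' * h' - g' * derivative h' ≠ 0 := by
  intro n
  induction n using Nat.strong_induction_on with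
  | _ n ih =>
    intro g h hc hn h1
    by_cases hW : derivative g * h - g * derivative h = 0
    · have hg : derivative g = 0 := by
        have e : derivative g * h = g * derivative h := by linear_combination hW
        have hd : g ∣ derivative g := by
          apply hc.dvd_of_dvd_mul_right
          rw [e]; exact Dvd.intro _ rfl
        by_contra h0
        have := natDegree_le_of_dvd hd h0
        have h2 : g.natDegree ≠ 0 := by
          intro h3
          apply h0
          rw [natDegree_eq_zero.mp h3 |>.choose_spec.symm]
          simp
        have h3 := natDegree_derivative_lt h2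
        omega
      have hh : derivative h = 0 := by
        have e : g * derivative h = derivative g * h := by linear_combination -hW
        have hd : h ∣ derivative h := by
          apply hc.symm.dvd_of_dvd_mul_left
          rw [e]; exact Dvd.intro_left _ rfl
        by_contra h0
        have := natDegree_le_of_dvd hd h0
        have h2 : h.natDegree ≠ 0 := by
          intro h3
          apply h0
          rw [natDegree_eq_zero.mp h3 |>.choose_spec.symm]
          simp
        have h3 := natDegree_derivative_lt h2
        omega
      have pth : ∀ f : K[X], derivative f = 0 → ∃ f' : K[X], f = f' ^ p := by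
        intro f hf
        refine ⟨(contract p f).map (frobeniusEquiv K p).symm.toRingHom, ?_⟩
        rw [← map_frobenius_expand, ← Polynomial.map_expand, Polynomial.map_map]
        rw [expand_contract p hf hp.out.ne_zero]
        have : (frobenius K p).comp (frobeniusEquiv K p).symm.toRingHom = RingHom.id K := by
          ext x
          simp
        rw [this, Polynomial.map_id]
      obtain ⟨g', rfl⟩ := pth g hg
      obtain ⟨h', rfl⟩ := pth h hh
      have hc' : IsCoprime g' h' := (IsCoprime.pow_iff hp.out.pos hp.out.pos).mp hc
      rw [natDegree_pow, natDegree_pow, Nat.mul_max_mul_left] at hn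
      have hlt : max g'.natDegree h'.natDegree < n := by
        have h2 : 1 ≤ max g'.natDegree h'.natDegree := by
          rcases Nat.eq_zero_or_pos (max g'.natDegree h'.natDegree) with h0 | h0
          · rw [h0] at hn; omega
          · exact h0
        have := hp.out.two_le
        nlinarith
      have h2 : 1 ≤ max g'.natDegree h'.natDegree := by
        rcases Nat.eq_zero_or_pos (max g'.natDegree h'.natDegree) with h0 | h0
        · rw [h0] at hn; omega
        · exact h0
      obtain ⟨e, g'', h'', e1, e2, e3, e4, e5⟩ := ih _ hlt g' h' hc' rfl h2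
      refine ⟨e + 1, g'', h'', ?_, ?_, e3, e4, e5⟩
      · rw [pow_succ, pow_mul, ← e1]
      · rw [pow_succ, pow_mul, ← e2]
    · exact ⟨0, g, h, by simp, by simp, hc, by omega, hW⟩

end Pool.Agent.Q15.AvgDeg
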