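import Pool.Agent.Q15.AvgDegA

/-! Average degree of the distinct irreducible factors: definitions and the main estimates. -/

set_option autoImplicit false

namespace Pool.Agent.Q15.AvgDeg

open Polynomial Finset Filter

universe u

section defs
variable {K : Type u} [Field K]

/-- `f_R = h ^ (deg f) f(g / h)` -/
noncomputable def tr (g h f : K[X]) : K[X] :=
  ∑ i ∈ range (f.natDegree + 1), C (f.coeff i) * g ^ i * h ^ (f.natDegree - i)

/-- the distinct irreducible factors (monic) -/
noncomputable def factors (F : K[X]) : Finset K[X] := by
  classical exact (UniqueFactorizationMonoid.normalizedFactors F).toFinset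

/-- `δ`: the degree of the squarefree part -/
noncomputable def delta (g h f : K[X]) (n : ℕ) : ℕ := ∑ p ∈ factors ((tr g h)^[n] f), p.natDegree

/-- `A = δ / N`, the average degree of the distinct irreducible factors -/
noncomputable def A (g h f : K[X]) (n : ℕ) : ℝ := (delta g h f n : ℝ) / ((factors ((tr g h)^[n] f)).card : ℝ)

/-- The action of `g / h` on the projective line over `L` (`none` is the point at infinity). -/
noncomputable def ev (L : Type u) [Field L] [Algebra K L] (g h : K[X]) : Option L → Option L
  | some x => by classical exact if aeval x h = 0 then none else some (aeval x g / aeval x h)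
  | none => if h.natDegree < g.natDegree then none
      else some (algebraMap K L (g.coeff h.natDegree / h.leadingCoeff))

end defs

section alg
variable {K : Type u} [Field K] {L : Type u} [Field L] [Algebra K L]

theorem aeval_tr (g h f : K[X]) (x : L) (hx : aeval x h ≠ 0) :
    aeval x (tr g h f) = (aeval x h) ^ f.natDegree * aeval (aeval x g / aeval x h) f := by
  unfold tr
  rw [map_sum, aeval_eq_sum_range (p := f), Finset.mul_sum]
  apply Finset.sum_congr rfl
  intro i hi
  rw [Finset.mem_range] at hi
  rw [map_mul, map_mul, aeval_C, map_pow, map_pow, Algebra.smul_def, div_pow]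
  have : (aeval x h) ^ f.natDegree = (aeval x h) ^ i * (aeval x h) ^ (f.natDegree - i) := by
    rw [← pow_add]; congr 1; omega
  rw [this]
  field_simp

theorem aeval_tr_zero (g h f : K[X]) (x : L) (hx : aeval x h = 0) :
    aeval x (tr g h f) = algebraMap K L f.leadingCoeff * (aeval x g) ^ f.natDegree := by
  unfold tr
  rw [map_sum, Finset.sum_range_succ, Finset.sum_eq_zero, zero_add]
  · rw [map_mul, map_mul, aeval_C, map_pow, map_pow, Nat.sub_self, pow_zero, mul_one, coeff_natDegree]
  · intro i hi
    rw [Finset.mem_range] at hi
    rw [map_mul, map_pow _ h, hx, zero_pow (by omega), mul_zero]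

theorem aeval_cop {g h : K[X]} (hc : IsCoprime g h) {x : L} (hx : aeval x h = 0) : aeval x g ≠ 0 := by
  intro h0
  obtain ⟨u, v, huv⟩ := hc
  have := congrArg (aeval x) huv
  simp only [map_add, map_mul, map_one, h0, hx, mul_zero, add_zero] at this
  exact zero_ne_one this

theorem root_tr {g h f : K[X]} (hc : IsCoprime g h) (hf : f ≠ 0) (x : L) :
    aeval x (tr g h f) = 0 ↔ aeval x h ≠ 0 ∧ aeval (aeval x g / aeval x h) f = 0 := by
  by_cases hx : aeval x h = 0
  · rw [aeval_tr_zero g h f x hx]
    constructor
    · intro h0
      rcases mul_eq_zero.mp h0 with h1 | h1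
      · rw [map_eq_zero, leadingCoeff_eq_zero] at h1
        exact absurd h1 hf
      · exact absurd (eq_zero_of_pow_eq_zero h1) (aeval_cop hc hx)
    · intro h0; exact absurd hx h0.1
  · rw [aeval_tr g h f x hx]
    constructor
    · intro h0
      rcases mul_eq_zero.mp h0 with h1 | h1
      · exact absurd (eq_zero_of_pow_eq_zero h1) hx
      · exact ⟨hx, h1⟩
    · rintro ⟨_, h1⟩
      rw [h1, mul_zero]

variable [IsAlgClosed L]

omit [IsAlgClosed L] in
theorem deg_map (g : K[X]) : (g.map (algebraMap K L)).natDegree = g.natDegree :=
  natDegree_map _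

theorem tr_ne_zero {g h f : K[X]} (hd : 1 ≤ max g.natDegree h.natDegree) (hc : IsCoprime g h) (hf : f ≠ 0)
    (L : Type u) [Field L] [Algebra K L] [IsAlgClosed L] :
    tr g h f ≠ 0 := by
  classical
  intro h0
  -- every `x : L` is a root
  have h1 : ∀ x : L, aeval x h ≠ 0 ∧ aeval (aeval x g / aeval x h) f = 0 := by
    intro x
    rw [← root_tr hc hf, h0, map_zero]
  -- so the preimage of the roots of `f` is everything: contradiction with finiteness
  have hinf : Infinite L := IsAlgClosed.instInfinite
  have h2 : (Set.univ : Set L).Finite := by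
    have h3 : (Set.univ : Set L) ⊆ (pre (g.map (algebraMap K L)) (h.map (algebraMap K L))
        (f.rootSet L).toFinset : Set L) := by
      intro x _
      rw [Finset.mem_coe, mem_pre]
      · rw [eval_map_algebraMap, eval_map_algebraMap, Set.mem_toFinset, mem_rootSet_of_ne hf]
        exact h1 x
      · rw [deg_map, deg_map]; exact hd
      · exact hc.map (mapRingHom (algebraMap K L))
    exact (Finset.finite_toSet _).subset h3
  exact Set.infinite_univ h2

theorem iter_ne_zero {g h f : K[X]} (hd : 1 ≤ max g.natDegree h.natDegree) (hc : IsCoprime g h) (hf : f ≠ 0)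
    (n : ℕ) : (tr g h)^[n] f ≠ 0 := by
  induction n with
  | zero => exact hf
  | succ n ih =>
    rw [Function.iterate_succ_apply']
    exact tr_ne_zero hd hc ih (AlgebraicClosure K)

end alg

section fin
variable {K : Type u} [Field K] [Finite K]

/-- the roots in the algebraic closure -/
noncomputable def Z (F : K[X]) : Finset (AlgebraicClosure K) := by
  classical exact (F.map (algebraMap K (AlgebraicClosure K))).roots.toFinset

omit [Finite K] in
theorem mem_Z {F : K[X]} (hF : F ≠ 0) (x : AlgebraicClosure K) : x ∈ Z F ↔ aeval x F = 0 := by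
  classical
  unfold Z
  rw [Multiset.mem_toFinset, mem_roots (Polynomial.map_ne_zero hF), IsRoot, eval_map_algebraMap]

theorem sum_deg {F : K[X]} (hF : F ≠ 0) : ∑ p ∈ factors F, p.natDegree = (Z F).card := by
  classical
  have h1 : Z F = (factors F).biUnion Z := by
    ext x
    rw [mem_Z hF, mem_biUnion]
    constructor
    · intro hx
      have hx' : aeval x (UniqueFactorizationMonoid.normalizedFactors F).prod = 0 := by
        obtain ⟨u, hu⟩ := UniqueFactorizationMonoid.prod_normalizedFactors hF
        have e := congrArg (aeval x) hu
        rw [map_mul, hx] at e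
        rcases mul_eq_zero.mp e with h | h
        · exact h
        · exact absurd h (IsUnit.ne_zero (u.isUnit.map (aeval x)))
      rw [map_multiset_prod, Multiset.prod_eq_zero_iff, Multiset.mem_map] at hx'
      obtain ⟨p, hp, hpx⟩ := hx'
      refine ⟨p, ?_, ?_⟩
      · unfold factors
        rw [Multiset.mem_toFinset]; exact hp
      · rw [mem_Z (UniqueFactorizationMonoid.irreducible_of_normalized_factor p hp).ne_zero]
        exact hpx
    · rintro ⟨p, hp, hpx⟩
      unfold factors at hp
      rw [Multiset.mem_toFinset] at hp
      rw [mem_Z (UniqueFactorizationMonoid.irreducible_of_normalized_factor p hp).ne_zero] at hpx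
      obtain ⟨q, hq⟩ := UniqueFactorizationMonoid.dvd_of_mem_normalizedFactors hp
      rw [hq, map_mul, hpx, zero_mul]
  rw [h1, Finset.card_biUnion]
  · apply Finset.sum_congr rfl
    intro p hp
    unfold factors at hp
    rw [Multiset.mem_toFinset] at hp
    have hirr := UniqueFactorizationMonoid.irreducible_of_normalized_factor p hp
    have hsep : p.Separable := PerfectField.separable_of_irreducible hirr
    have := Polynomial.card_rootSet_eq_natDegree (K := AlgebraicClosure K) hsep
      (IsAlgClosed.splits _)
    rw [← this]
    unfold Z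
    simp only [rootSet, aroots]
    rw [← Fintype.card_coe]
    exact Fintype.card_congr (Equiv.setCongr (by simp))
  · intro p hp q hq hpq
    rw [Function.onFun, Finset.disjoint_left]
    intro x hx hx'
    unfold factors at hp hq
    rw [Finset.mem_coe, Multiset.mem_toFinset] at hp hq
    have hip := UniqueFactorizationMonoid.irreducible_of_normalized_factor p hp
    have hiq := UniqueFactorizationMonoid.irreducible_of_normalized_factor q hq
    rw [mem_Z hip.ne_zero] at hx
    rw [mem_Z hiq.ne_zero] at hx'
    apply hpq
    have hcop : ¬ IsCoprime p q := by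
      rintro ⟨a, b, hab⟩
      have := congrArg (aeval x) hab
      rw [map_add, map_mul, map_mul, hx, hx', mul_zero, mul_zero, add_zero, map_one] at this
      exact zero_ne_one this
    have hdvd : p ∣ q := by
      by_contra h0
      exact hcop ((hip.coprime_iff_not_dvd).mpr h0)
    have has : Associated p q := hip.associated_of_dvd hiq hdvd
    have e1 := UniqueFactorizationMonoid.normalize_normalized_factor p hp
    have e2 := UniqueFactorizationMonoid.normalize_normalized_factor q hq
    rw [← e1, ← e2]
    exact normalize_eq_normalize_iff_associated.mpr has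

/-- few factors of small degree -/
theorem card_small (F : K[X]) (m : ℕ) :
    ((factors F).filter fun p => p.natDegree ≤ m).card ≤ Nat.card K ^ (m + 1) := by
  classical
  have := Fintype.ofFinite K
  have h1 : ((factors F).filter fun p => p.natDegree ≤ m).card ≤
      (Finset.univ : Finset (Fin (m + 1) → K)).card := by
    apply Finset.card_le_card_of_injOn (fun p => fun i : Fin (m + 1) => p.coeff i)
    · intro p _
      exact Finset.mem_coe.mpr (Finset.mem_univ _)
    · intro p hp q hq hpq
      rw [Finset.mem_coe, Finset.mem_filter] at hp hq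
      ext i
      rcases Nat.lt_or_ge i (m + 1) with hi | hi
      · exact congrFun hpq ⟨i, hi⟩
      · rw [coeff_eq_zero_of_natDegree_lt (by omega), coeff_eq_zero_of_natDegree_lt (by omega)]
  refine h1.trans ?_
  rw [Finset.card_univ, Fintype.card_fun, Fintype.card_fin, Nat.card_eq_fintype_card]

theorem card_factors_le {F : K[X]} (m : ℕ) :
    (m + 1) * (factors F).card ≤ (m + 1) * Nat.card K ^ (m + 1) + ∑ p ∈ factors F, p.natDegree := by
  classical
  have h2 := Finset.card_filter_add_card_filter_not (s := factors F) (fun p => p.natDegree ≤ m)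
  have h3 := card_small F m
  have h4 : (m + 1) * ((factors F).filter fun p => ¬ p.natDegree ≤ m).card ≤ ∑ p ∈ factors F, p.natDegree := by
    calc (m + 1) * ((factors F).filter fun p => ¬ p.natDegree ≤ m).card
        = ∑ p ∈ (factors F).filter fun p => ¬ p.natDegree ≤ m, (m + 1) := by
          rw [Finset.sum_const, smul_eq_mul, mul_comm]
      _ ≤ ∑ p ∈ (factors F).filter fun p => ¬ p.natDegree ≤ m, p.natDegree := by
          apply Finset.sum_le_sum
          intro p hp
          rw [Finset.mem_filter] at hp
          omega
      _ ≤ _ := Finset.sum_le_sum_of_subset (Finset.filter_subset _ _)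
  rw [← h2]
  nlinarith

/-- the key arithmetic: `A ≥ c log δ` -/
theorem A_ge {F : K[X]} (m : ℕ) (hm : (m + 1) * Nat.card K ^ (m + 1) ≤ ∑ p ∈ factors F, p.natDegree) :
    (m + 1) * (factors F).card ≤ 2 * ∑ p ∈ factors F, p.natDegree := by
  have := card_factors_le (F := F) m
  omega

end fin

end Pool.Agent.Q15.AvgDeg
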