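import Pool.Agent.Q15.AvgDegB

/-! Average degree of the distinct irreducible factors: exponential growth and conclusion. -/

set_option autoImplicit false

namespace Pool.Agent.Q15.AvgDeg

open Polynomial Finset Filter

universe u

theorem growth (t : ℕ → ℕ) (d : ℕ) (hd : 1 ≤ d) (h1 : ∀ n, t (n + 1) ≤ d * t n)
    (h2 : ∀ n, (d : ℤ) * ((t n : ℤ) - 1) - (2 * d - 1) ≤ t (n + 1)) (h3 : ∀ B, ∃ n, B ≤ t n) :
    ∃ n₀, ∀ k, 2 ^ k ≤ t (n₀ + k) := by
  have hd2 : 2 ≤ d := by
    by_contra h0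
    have : d = 1 := by omega
    subst this
    have h4 : ∀ n, t n ≤ t 0 := by
      intro n
      induction n with
      | zero => exact le_rfl
      | succ n ih => have := h1 n; omega
    obtain ⟨n, hn⟩ := h3 (t 0 + 1)
    have := h4 n
    omega
  obtain ⟨n₀, hn₀⟩ := h3 6
  refine ⟨n₀, fun k => ?_⟩
  have : (2 : ℤ) ^ k ≤ t (n₀ + k) - 5 := by
    induction k with
    | zero =>
      have : (6 : ℤ) ≤ t n₀ := by exact_mod_cast hn₀
      simp only [pow_zero, add_zero]
      linarith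
    | succ k ih =>
      have h4 := h2 (n₀ + k)
      have h5 : (2 : ℤ) ≤ d := by exact_mod_cast hd2
      have h6 : (0 : ℤ) ≤ t (n₀ + k) - 5 := le_trans (by positivity) ih
      have h7 : (2 : ℤ) * (t (n₀ + k) - 5) ≤ d * (t (n₀ + k) - 5) := mul_le_mul_of_nonneg_right h5 h6
      rw [pow_succ, ← add_assoc]
      linarith
  have h8 : ((2 ^ k : ℕ) : ℤ) ≤ t (n₀ + k) := by push_cast; linarith
  exact_mod_cast h8

variable {K : Type u} [Field K] [Finite K]

theorem deltaZ {g h f : K[X]} (hd : 1 ≤ max g.natDegree h.natDegree) (hc : IsCoprime g h) (hf : f ≠ 0) (n : ℕ) :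
    delta g h f n = (Z ((tr g h)^[n] f)).card :=
  sum_deg (iter_ne_zero hd hc hf n)

theorem step {g h f : K[X]} (hd : 1 ≤ max g.natDegree h.natDegree) (hc : IsCoprime g h) (hf : f ≠ 0) :
    ∃ d : ℕ, 1 ≤ d ∧ (∀ n, delta g h f (n + 1) ≤ d * delta g h f n) ∧
      (∀ n, (d : ℤ) * ((delta g h f n : ℤ) - 1) - (2 * d - 1) ≤ delta g h f (n + 1)) := by
  classical
  obtain ⟨p, hp⟩ := CharP.exists K
  have hp' : Fact p.Prime := ⟨CharP.char_is_prime K p⟩
  obtain ⟨e, g0, h0, eg, eh, hc0, hd0, hW0⟩ := exists_reduction p (max g.natDegree h.natDegree) g h hc rfl hd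
  have hpL : CharP (AlgebraicClosure K) p := charP_of_injective_algebraMap (algebraMap K _).injective p
  set φ := algebraMap K (AlgebraicClosure K) with hφ
  have hc1 : IsCoprime (g0.map φ) (h0.map φ) := hc0.map (mapRingHom φ)
  have hd1 : 1 ≤ max (g0.map φ).natDegree (h0.map φ).natDegree := by
    rw [natDegree_map, natDegree_map]; exact hd0
  have hW1 : derivative (g0.map φ) * h0.map φ - g0.map φ * derivative (h0.map φ) ≠ 0 := by
    rw [derivative_map, derivative_map, ← Polynomial.map_mul, ← Polynomial.map_mul, ← Polynomial.map_sub]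
    exact Polynomial.map_ne_zero hW0
  have key : ∀ n, ∃ S : Finset (AlgebraicClosure K), S.card = delta g h f n ∧
      delta g h f (n + 1) = (pre (g0.map φ) (h0.map φ) S).card := by
    intro n
    refine ⟨(Z ((tr g h)^[n] f)).image ((iterateFrobeniusEquiv (AlgebraicClosure K) p e).symm), ?_, ?_⟩
    · rw [Finset.card_image_of_injective _ (RingEquiv.injective _), deltaZ hd hc hf]
    · rw [deltaZ hd hc hf]
      congr 1
      ext x
      rw [mem_Z (iter_ne_zero hd hc hf _), Function.iterate_succ_apply', root_tr hc (iter_ne_zero hd hc hf _),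
        mem_pre hd1 hc1, eval_map_algebraMap, eval_map_algebraMap, ← mem_Z (iter_ne_zero hd hc hf _)]
      have hp0 : p ^ e ≠ 0 := pow_ne_zero _ hp'.out.ne_zero
      rw [eh, eg, map_pow, map_pow, ← div_pow, Finset.mem_image]
      constructor
      · rintro ⟨h1, h2⟩
        refine ⟨fun h3 => h1 (by rw [h3, zero_pow hp0]), _, h2, ?_⟩
        rw [RingEquiv.symm_apply_eq, iterateFrobeniusEquiv_apply, iterateFrobenius_def]
      · rintro ⟨h1, y, h2, h3⟩
        refine ⟨pow_ne_zero _ h1, ?_⟩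
        rw [RingEquiv.symm_apply_eq, iterateFrobeniusEquiv_apply, iterateFrobenius_def] at h3
        rw [← h3]; exact h2
  refine ⟨max (g0.map φ).natDegree (h0.map φ).natDegree, hd1, fun n => ?_, fun n => ?_⟩
  · obtain ⟨S, hS, hS'⟩ := key n
    rw [← hS, hS']
    exact card_pre_le hd1 hc1 S
  · obtain ⟨S, hS, hS'⟩ := key n
    rw [← hS, hS']
    exact card_pre_ge hd1 hc1 hW1 S _ rfl

theorem main {g h f : K[X]} (hd : 1 ≤ max g.natDegree h.natDegree) (hc : IsCoprime g h) (hf : f ≠ 0)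
    (hub : ∀ B : ℕ, ∃ n, B ≤ delta g h f n) :
    ∃ c : ℝ, 0 < c ∧ ∀ᶠ n : ℕ in atTop, c * n ≤ A g h f n := by
  classical
  obtain ⟨d, hd1, hs1, hs2⟩ := step hd hc hf
  obtain ⟨n₀, hn₀⟩ := growth (delta g h f) d hd1 hs1 hs2 hub
  set q := Nat.card K with hq
  have hq2 : 2 ≤ q := Finite.one_lt_card
  refine ⟨1 / (16 * q), by positivity, ?_⟩
  rw [eventually_atTop]
  refine ⟨2 * n₀ + 8 * q, fun n hn => ?_⟩
  -- `m + 1 = (n - n₀) / (2 q)`
  obtain ⟨M, hM1, hM2⟩ : ∃ M : ℕ, 2 * q * M ≤ n - n₀ ∧ n - n₀ < 2 * q * (M + 1) :=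
    ⟨(n - n₀) / (2 * q), Nat.mul_div_le _ _, Nat.lt_mul_div_succ _ (by omega)⟩
  have hM3 : 1 ≤ M := by
    by_contra h0
    have : M = 0 := by omega
    subst this
    omega
  obtain ⟨m, rfl⟩ : ∃ m, M = m + 1 := ⟨M - 1, by omega⟩
  have h1 : 2 ^ (n - n₀) ≤ delta g h f n := by
    have := hn₀ (n - n₀)
    rwa [Nat.add_sub_of_le (by omega)] at this
  have h2 : (m + 1) * q ^ (m + 1) ≤ 2 ^ (n - n₀) := by
    have e1 : m + 1 ≤ q ^ (m + 1) := (Nat.lt_pow_self (by omega)).le
    have e2 : q ≤ 2 ^ q := Nat.lt_two_pow_self.le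
    calc (m + 1) * q ^ (m + 1) ≤ q ^ (m + 1) * q ^ (m + 1) := Nat.mul_le_mul_right _ e1
      _ = q ^ (2 * (m + 1)) := by rw [← pow_add]; congr 1; ring
      _ ≤ (2 ^ q) ^ (2 * (m + 1)) := Nat.pow_le_pow_left e2 _
      _ = 2 ^ (2 * q * (m + 1)) := by rw [← pow_mul]; congr 1; ring
      _ ≤ _ := Nat.pow_le_pow_right (by norm_num) hM1
  have h3 := A_ge (F := (tr g h)^[n] f) m (h2.trans h1)
  have h4 : 0 < delta g h f n := lt_of_lt_of_le (by positivity) h1
  have h5 : 0 < (factors ((tr g h)^[n] f)).card := by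
    rw [Finset.card_pos]
    by_contra h0
    rw [Finset.not_nonempty_iff_eq_empty] at h0
    unfold delta at h4
    rw [h0] at h4
    simp at h4
  change (m + 1) * (factors ((tr g h)^[n] f)).card ≤ 2 * delta g h f n at h3
  unfold A
  have h6 : (0 : ℝ) < (factors ((tr g h)^[n] f)).card := by exact_mod_cast h5
  rw [le_div_iff₀ h6]
  have h7 : ((m : ℝ) + 1) * (factors ((tr g h)^[n] f)).card ≤ 2 * delta g h f n := by exact_mod_cast h3
  have h8 : (n : ℝ) ≤ 8 * q * (m + 1) := by
    have : n ≤ 8 * q * (m + 1) := by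
      have e1 : n - n₀ < 2 * q * (m + 1 + 1) := hM2
      have e2 : 2 * q * (m + 1 + 1) ≤ 4 * q * (m + 1) := by nlinarith
      have e3 : 2 * (4 * q * (m + 1)) = 8 * q * (m + 1) := by ring
      omega
    exact_mod_cast this
  have hqR : (0 : ℝ) < q := by positivity
  calc 1 / (16 * (q : ℝ)) * n * (factors ((tr g h)^[n] f)).card
      ≤ 1 / (16 * (q : ℝ)) * (8 * q * (m + 1)) * (factors ((tr g h)^[n] f)).card := by gcongr
    _ = 1 / 2 * ((m + 1) * (factors ((tr g h)^[n] f)).card) := by field_simp; ring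
    _ ≤ 1 / 2 * (2 * delta g h f n) := by gcongr
    _ = delta g h f n := by ring

/-- non-critical root outside of the forward orbit of infinity -/
theorem unbounded_of_root {g h f : K[X]} (hd : 1 ≤ max g.natDegree h.natDegree) (hc : IsCoprime g h) (hf : f ≠ 0)
    {α : AlgebraicClosure K} (hα : aeval α f = 0)
    (hcrit : ∀ B : ℕ, ∃ n : ℕ, (B : ℕ∞) <
      {x : AlgebraicClosure K | (ev (AlgebraicClosure K) g h)^[n] (some x) = some α}.encard)
    (horb : ∀ n : ℕ, (ev (AlgebraicClosure K) g h)^[n] none ≠ some α) :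
    ∀ B : ℕ, ∃ n, B ≤ delta g h f n := by
  classical
  have key : ∀ n : ℕ, ∀ x : AlgebraicClosure K, (ev (AlgebraicClosure K) g h)^[n] (some x) = some α →
      x ∈ Z ((tr g h)^[n] f) := by
    intro n
    induction n with
    | zero =>
      intro x hx
      rw [Function.iterate_zero, id_eq, Option.some.injEq] at hx
      rw [mem_Z (iter_ne_zero hd hc hf _), hx]
      exact hα
    | succ n ih =>
      intro x hx
      rw [Function.iterate_succ_apply] at hx
      rw [mem_Z (iter_ne_zero hd hc hf _), Function.iterate_succ_apply', root_tr hc (iter_ne_zero hd hc hf _),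
        ← mem_Z (iter_ne_zero hd hc hf _)]
      by_cases h0 : aeval x h = 0
      · exfalso
        have : ev (AlgebraicClosure K) g h (some x) = none := by
          unfold ev; simp only [h0, if_true]
        rw [this] at hx
        exact horb n hx
      · have : ev (AlgebraicClosure K) g h (some x) = some (aeval x g / aeval x h) := by
          unfold ev; simp only [h0, if_false]
        rw [this] at hx
        exact ⟨h0, ih _ hx⟩
  intro B
  obtain ⟨n, hn⟩ := hcrit B
  refine ⟨n, ?_⟩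
  have h1 : {x : AlgebraicClosure K | (ev (AlgebraicClosure K) g h)^[n] (some x) = some α}.encard ≤
      (Z ((tr g h)^[n] f) : Set (AlgebraicClosure K)).encard := Set.encard_le_encard fun x hx => key n x hx
  rw [Set.encard_coe_eq_coe_finsetCard] at h1
  have h2 : (B : ℕ∞) < ((Z ((tr g h)^[n] f)).card : ℕ∞) := lt_of_lt_of_le hn h1
  rw [deltaZ hd hc hf]
  exact_mod_cast h2.le

end Pool.Agent.Q15.AvgDeg
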