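import Pool.Agent.Q15.AvgDegC

/-! The degenerate example `R = x / (x² + x + 1)`, `f = x` over `𝔽₂`. -/

set_option autoImplicit false

namespace Pool.Agent.Q15.AvgDeg

open Polynomial Finset Filter

noncomputable section

def exh : (ZMod 2)[X] := X ^ 2 + X + 1

theorem exh_deg : exh.natDegree = 2 := by
  unfold exh
  compute_degree!

theorem exh_lc : exh.leadingCoeff = 1 := by
  rw [leadingCoeff, exh_deg]
  unfold exh
  simp [coeff_X, coeff_one]

theorem ex_cop : IsCoprime (X : (ZMod 2)[X]) exh := by
  refine ⟨-(X + 1), 1, ?_⟩
  unfold exh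
  ring

theorem ex_tr : tr X exh X = X := by
  unfold tr
  rw [natDegree_X, Finset.sum_range_succ, Finset.sum_range_succ, Finset.sum_range_zero]
  simp

theorem ex_iter (n : ℕ) : (tr X exh)^[n] X = X := by
  induction n with
  | zero => rfl
  | succ n ih => rw [Function.iterate_succ_apply', ih, ex_tr]

theorem factors_X {K : Type} [Field K] : factors (X : K[X]) = {X} := by
  classical
  unfold factors
  rw [UniqueFactorizationMonoid.normalizedFactors_irreducible irreducible_X, monic_X.normalize_eq_self]
  simp

theorem ex_factors : factors (X : (ZMod 2)[X]) = {X} := factors_X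

theorem ex_A (n : ℕ) : A X exh X n = 1 := by
  unfold A delta
  rw [ex_iter, ex_factors]
  simp

abbrev L := AlgebraicClosure (ZMod 2)

theorem two0 : (2 : L) = 0 := by
  have : CharP L 2 := charP_of_injective_algebraMap (algebraMap (ZMod 2) L).injective 2
  exact CharTwo.two_eq_zero

theorem ev_some {x : L} (hx : x ^ 2 + x + 1 ≠ 0) :
    ev L X exh (some x) = some (x / (x ^ 2 + x + 1)) := by
  have h1 : aeval x exh = x ^ 2 + x + 1 := by unfold exh; simp
  have hx2 : aeval x exh ≠ 0 := by rw [h1]; exact hx
  unfold ev
  simp only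
  rw [if_neg hx2, aeval_X, h1]

theorem ev_root {x : L} (hx : x ^ 2 + x + 1 = 0) : ev L X exh (some x) = none := by
  have h1 : aeval x exh = x ^ 2 + x + 1 := by unfold exh; simp
  have hx2 : aeval x exh = 0 := by rw [h1]; exact hx
  unfold ev
  simp only
  rw [if_pos hx2]

theorem ev_none : ev L X exh none = some 0 := by
  unfold ev
  simp only [exh_deg, natDegree_X]
  rw [if_neg (by norm_num)]
  simp [coeff_X]

theorem exists_omega : ∃ w : L, w ^ 2 + w + 1 = 0 := by
  obtain ⟨w, hw⟩ := IsAlgClosed.exists_root (X ^ 2 + X + 1 : L[X]) (by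
    have : (X ^ 2 + X + 1 : L[X]).degree = 2 := by compute_degree!
    rw [this]; norm_num)
  exact ⟨w, by simpa using hw⟩

theorem exMapdeg : (1 : ℕ) ≤ max (X : L[X]).natDegree (X ^ 2 + X + 1 : L[X]).natDegree := by
  rw [natDegree_X]; exact le_max_left _ _

theorem exMapcop : IsCoprime (X : L[X]) (X ^ 2 + X + 1) := ⟨-(X + 1), 1, by ring⟩

theorem exists_sets {w : L} (hw : w ^ 2 + w + 1 = 0) (k : ℕ) : ∃ S : Finset L, 2 ^ k ≤ S.card ∧
    (0 : L) ∉ S ∧ (1 : L) ∉ S ∧ ∀ x ∈ S, (ev L X exh)^[k] (some x) = some w := by
  classical
  induction k with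
  | zero =>
    refine ⟨{w}, by simp, ?_, ?_, ?_⟩
    · rw [Finset.mem_singleton]
      rintro rfl
      simp at hw
    · rw [Finset.mem_singleton]
      rintro rfl
      have : (1 : L) = 0 := by linear_combination hw - two0
      exact one_ne_zero this
    · intro x hx
      rw [Finset.mem_singleton] at hx
      rw [hx]; rfl
  | succ k ih =>
    obtain ⟨S, hS, h0, h1, h2⟩ := ih
    have hmem := fun x => mem_pre (g := (X : L[X])) (h := X ^ 2 + X + 1) exMapdeg exMapcop (S := S) (x := x)
    simp only [eval_X, eval_add, eval_pow, eval_one] at hmem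
    refine ⟨pre (X : L[X]) (X ^ 2 + X + 1) S, ?_, ?_, ?_, ?_⟩
    · rw [card_pre exMapdeg exMapcop, pow_succ]
      calc 2 ^ k * 2 ≤ S.card * 2 := Nat.mul_le_mul_right _ hS
        _ = ∑ _b ∈ S, 2 := by rw [Finset.sum_const, smul_eq_mul]
        _ ≤ _ := by
          apply Finset.sum_le_sum
          intro c hc
          have hc0 : c ≠ 0 := fun h => h0 (h ▸ hc)
          have hc1 : c ≠ 1 := fun h => h1 (h ▸ hc)
          obtain ⟨x, hx⟩ := IsAlgClosed.exists_root (C c * X ^ 2 + C (c - 1) * X + C c : L[X]) (by
            rw [degree_quadratic hc0]; norm_num)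
          have hx' : c * x ^ 2 + (c - 1) * x + c = 0 := by simpa using hx
          have hx0 : x ≠ 0 := by rintro rfl; apply hc0; linear_combination hx'
          have hx1 : x ≠ 1 := by
            rintro rfl
            apply hc1
            have := two0
            linear_combination hx' - c * this
          have hne : x ≠ x⁻¹ := by
            intro h
            have e : x * x = 1 := by nth_rewrite 2 [h]; exact mul_inv_cancel₀ hx0
            apply hx1
            have e2 : (x - 1) ^ 2 = 0 := by
              have := two0
              linear_combination e + (1 - x) * this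
            have := eq_zero_of_pow_eq_zero e2
            linear_combination this
          have hsub : ({x, x⁻¹} : Finset L) ⊆ (X - C c * (X ^ 2 + X + 1) : L[X]).roots.toFinset := by
            intro y hy
            rw [Multiset.mem_toFinset, mem_roots (lin_ne_zero exMapdeg exMapcop c)]
            simp only [IsRoot, eval_sub, eval_X, eval_mul, eval_C, eval_add, eval_pow, eval_one]
            rw [Finset.mem_insert, Finset.mem_singleton] at hy
            rcases hy with rfl | rfl
            · linear_combination -hx'
            · have : (x⁻¹ - c * (x⁻¹ ^ 2 + x⁻¹ + 1)) * x ^ 2 = 0 := by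
                field_simp
                linear_combination -hx'
              rcases mul_eq_zero.mp this with h | h
              · exact h
              · exact absurd (eq_zero_of_pow_eq_zero h) hx0
          have h2c : ({x, x⁻¹} : Finset L).card = 2 := Finset.card_pair hne
          have := Finset.card_le_card hsub
          omega
    · rw [hmem]
      rintro ⟨_, h⟩
      apply h0
      simpa using h
    · rw [hmem]
      rintro ⟨_, h⟩
      apply h1
      have : (1 : L) ^ 2 + 1 + 1 = 1 := by linear_combination two0
      rw [this, div_one] at h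
      exact h
    · intro x hx
      rw [hmem] at hx
      rw [Function.iterate_succ_apply, ev_some hx.1]
      exact h2 _ hx.2

theorem ex_noncritical : ∀ B : ℕ, ∃ n : ℕ, (B : ℕ∞) <
    {x : L | (ev L X exh)^[n] (some x) = some 0}.encard := by
  intro B
  obtain ⟨w, hw⟩ := exists_omega
  obtain ⟨S, hS, _, _, h2⟩ := exists_sets hw B
  refine ⟨B + 2, ?_⟩
  have h3 : (S : Set L) ⊆ {x : L | (ev L X exh)^[B + 2] (some x) = some 0} := by
    intro x hx
    rw [Set.mem_ofPred_eq, Nat.add_comm, Function.iterate_add_apply, h2 x hx]
    change ev L X exh (ev L X exh (some w)) = some 0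
    rw [ev_root hw, ev_none]
  refine lt_of_lt_of_le ?_ (Set.encard_le_encard h3)
  rw [Set.encard_coe_eq_coe_finsetCard]
  have : B < S.card := lt_of_lt_of_le Nat.lt_two_pow_self hS
  exact_mod_cast this

end

end Pool.Agent.Q15.AvgDeg
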