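import Mathlib

set_option autoImplicit false

/-!
# Self-maps commuting with the translations by a subgroup

Let `F : A → A` satisfy `F (x + v) = F x + v` for `v` in a subgroup `V`.  The times `k` at which
the orbit of `a` is in `a + V` are closed under gcd, and `k ↦ F^k a - a` is additive on them.
-/

namespace Pool.Agent.Q15.Translation

variable {A : Type*} [AddCommGroup A] {V : AddSubgroup A} {F : A → A}

theorem iterate_add (hF : ∀ x, ∀ v ∈ V, F (x + v) = F x + v) (k : ℕ) (x v : A) (hv : v ∈ V) :
    F^[k] (x + v) = F^[k] x + v := by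
  induction k generalizing x with
  | zero => rfl
  | succ k ih => rw [Function.iterate_succ_apply, Function.iterate_succ_apply, hF x v hv, ih]

/-- The displacement of `a` after `k` steps. -/
def disp (F : A → A) (a : A) (k : ℕ) : A := F^[k] a - a

theorem disp_zero (a : A) : disp F a 0 = 0 := by simp [disp]

theorem disp_add (hF : ∀ x, ∀ v ∈ V, F (x + v) = F x + v) (a : A) (k l : ℕ)
    (hl : disp F a l ∈ V) : disp F a (k + l) = disp F a k + disp F a l := by
  unfold disp at *
  rw [Function.iterate_add_apply]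
  have h : F^[l] a = a + (F^[l] a - a) := by abel
  conv_lhs => rw [h, iterate_add hF k a _ hl]
  abel

theorem disp_mul (hF : ∀ x, ∀ v ∈ V, F (x + v) = F x + v) (a : A) (l j : ℕ)
    (hl : disp F a l ∈ V) : disp F a (j * l) = j • disp F a l := by
  induction j with
  | zero => simp [disp_zero]
  | succ j ih => rw [add_mul, one_mul, disp_add hF a _ _ hl, ih, succ_nsmul]

theorem disp_mod (hF : ∀ x, ∀ v ∈ V, F (x + v) = F x + v) (a : A) (k l : ℕ)
    (hk : disp F a k ∈ V) (hl : disp F a l ∈ V) : disp F a (k % l) ∈ V := by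
  have h1 : disp F a (k / l * l) ∈ V := by
    rw [disp_mul hF a l _ hl]
    exact V.nsmul_mem hl _
  have h2 : disp F a k = disp F a (k % l) + disp F a (k / l * l) := by
    rw [← disp_add hF a _ _ h1]
    congr 1
    rw [mul_comm]
    exact (Nat.mod_add_div k l).symm
  have h3 : disp F a (k % l) = disp F a k - disp F a (k / l * l) := by
    rw [h2]
    abel
  rw [h3]
  exact V.sub_mem hk h1

theorem disp_gcd (hF : ∀ x, ∀ v ∈ V, F (x + v) = F x + v) (a : A) (k l : ℕ) :
    disp F a k ∈ V → disp F a l ∈ V → disp F a (Nat.gcd k l) ∈ V := by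
  induction k, l using Nat.gcd.induction with
  | H0 n =>
    intro _ h
    simpa using h
  | H1 m n hm ih =>
    intro h1 h2
    rw [Nat.gcd_rec]
    exact ih (disp_mod hF a n m h2 h1) h1

/-- If the displacements at times `k` and `l` are in `V`, they are multiples of a common element of
`V`. -/
theorem exists_common (hF : ∀ x, ∀ v ∈ V, F (x + v) = F x + v) (a : A) (k l : ℕ)
    (hk : disp F a k ∈ V) (hl : disp F a l ∈ V) :
    ∃ c ∈ V, ∃ i j : ℕ, disp F a k = i • c ∧ disp F a l = j • c := by
  obtain ⟨i, hi⟩ := Nat.gcd_dvd_left k l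
  obtain ⟨j, hj⟩ := Nat.gcd_dvd_right k l
  have hg := disp_gcd hF a k l hk hl
  refine ⟨_, hg, i, j, ?_, ?_⟩
  · conv_lhs => rw [hi, mul_comm]
    exact disp_mul hF a _ _ hg
  · conv_lhs => rw [hj, mul_comm]
    exact disp_mul hF a _ _ hg

end Pool.Agent.Q15.Translation
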